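import Pool.Agent.H95.ESL.Stmts
import Pool.Agent.H45.ESL.TWS
import Pool.Agent.H25.ESL.TWN
import Pool.Agent.H66.ESL.FOU
import Pool.Agent.H76.ESL.NZ
import Pool.Agent.H58.ESL.QRP
import Pool.Agent.H56.ESL.PIG
import Pool.Agent.H48.ESL.CONV
import Pool.Agent.H93.ESL.MDL
import Pool.Agent.H72.ESL.FIN

/-!
# Board esl: assembly
-/

set_option autoImplicit false

namespace ESL

theorem final : S_FIN :=
  fin_thm tws_thm twn_thm (nz_thm rot_thm fou_thm) qrp_thm pig_thm con_thm MDL_thm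

end ESL
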