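import Pool.Agent.H95.ESP.Defs

/-!
# Board esl (MP_3ddf05_nt): the statements of the rows

Theorem (row FIN): for every elliptic curve `E` over `ℚ` and every `c < 1/(4 log 2)` there are infinitely many
quadratic twists `E'` of `E`, not isogenous to `E`, with equally many points as `E` modulo every prime
`p ≤ c L log L` of good reduction for both, `L = log (N N')`: in the question the bound `C (log N N')^2`
cannot be replaced by `c L log L`.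
-/

set_option autoImplicit false

namespace ESL
open Finset ESP

/-- a multiple of the conductor of the curve `(a,b)` (the exponent of the conductor is at most 8 at 2, at most
5 at 3 and at most 2 at the other primes) -/
def M (a b : ℤ) : ℕ := 2 ^ 8 * 3 ^ 5 * (R a b) ^ 2

/-- number of affine points of `y² = x³ + a x + b` over `ZMod p` -/
noncomputable def aff {p : ℕ} (a b : ZMod p) : ℕ :=
  Nat.card {v : ZMod p × ZMod p // v.2 ^ 2 = v.1 ^ 3 + a * v.1 + b}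

/-- TWS. The map `(x,y) ↦ (s²x, s³y)`. -/
def S_TWS : Prop := ∀ (p : ℕ) [Fact p.Prime], ∀ a b s : ZMod p, s ≠ 0 →
  aff (a * (s ^ 2) ^ 2) (b * (s ^ 2) ^ 3) = aff a b

/-- TWN. The number of `y` with `y² = t` is `1 + χ(t)` (`quadraticChar`), and `x = d x'` turns the right side
of the twisted curve into `d³ f(x')` with `χ(d³) = -1`; so the two numbers add up to `∑ (1+χ(f)) + (1-χ(f))`. -/
def S_TWN : Prop := ∀ (p : ℕ) [Fact p.Prime], 5 ≤ p → ∀ a b d : ZMod p, ¬ IsSquare d →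
  aff a b + aff (a * d ^ 2) (b * d ^ 3) = 2 * p

/-- ROT. With `m = 3x₀²+a` one has `-(4a³+27b²) = (-3x₀²-4a) m²` (as `b = -x₀³-a x₀`), so `m ≠ 0` and
`-3x₀²-4a = (δ/m)²`; the other two roots are `(-x₀ ± δ/m)/2`, and all differences are nonzero as `δ ≠ 0`. -/
def S_ROT : Prop := ∀ (p : ℕ) [Fact p.Prime], 5 ≤ p → ∀ a b δ x₀ : ZMod p, δ ≠ 0 →
  -(4 * a ^ 3 + 27 * b ^ 2) = δ ^ 2 → x₀ ^ 3 + a * x₀ + b = 0 →
  ∃ e₁ e₂ e₃ : ZMod p, e₁ ≠ e₂ ∧ e₁ ≠ e₃ ∧ e₂ ≠ e₃ ∧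
    ∀ x : ZMod p, x ^ 3 + a * x + b = (x - e₁) * (x - e₂) * (x - e₃)

/-- FOU. The number of affine points is `3 + 2m`, `m` the number of `x` with `f(x)` a nonzero square. The map
`x ↦ e₁ + (e₁-e₂)(e₁-e₃)/(x-e₁)` is an involution of these `x` (`f(x') = f(x) ((e₁-e₂)(e₁-e₃)/(x-e₁)²)²`); its
fixed points are `e₁ ± s` with `s² = (e₁-e₂)(e₁-e₃)`, and `f(e₁+s) f(e₁-s) = (s²(e₂-e₃))²·(...)`: precisely
`f(e₁+s) f(e₁-s) = -s²·((s+u)(s+v))·((-s+u)(-s+v))` with `u = e₁-e₂`, `v = e₁-e₃`, `uv = s²`, which is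
`s⁴ (u-v)²`, a nonzero square: so both or none of the fixed points belong to the set, and `m` is even. -/
def S_FOU : Prop := ∀ (p : ℕ) [Fact p.Prime], 5 ≤ p → ∀ e₁ e₂ e₃ : ZMod p, e₁ ≠ e₂ → e₁ ≠ e₃ → e₂ ≠ e₃ →
  4 ∣ Nat.card {v : ZMod p × ZMod p // v.2 ^ 2 = (v.1 - e₁) * (v.1 - e₂) * (v.1 - e₃)} + 1

/-- NZ. `p ≡ 1 mod 4` and minus the discriminant form is a nonzero square: then the number of points is not
`p + 1`. If the cubic has no root, the number of points is odd (`ESP.pty_thm`, H95/ESP/PTY), `p + 1` is even;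
if it has a root, ROT and FOU give that the number of points is divisible by 4, but `p + 1 ≡ 2`. -/
def S_NZ : Prop := ∀ (p : ℕ) [Fact p.Prime], 5 ≤ p → p % 4 = 1 → ∀ a b δ : ZMod p, δ ≠ 0 →
  -(4 * a ^ 3 + 27 * b ^ 2) = δ ^ 2 → aff a b ≠ p

/-- QRP. By the Chinese remainder theorem and Dirichlet (`Nat.forall_exists_prime_gt_and_eq_mod`) there is a
prime `p ≡ 1` modulo `8 |D| q₁` that is a nonresidue modulo `q₂`. By quadratic reciprocity `-1`, `2`, every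
odd prime dividing `D`, and `q₁` are squares mod `p` (`p ≡ 1 mod 8`), `q₂` is not. -/
def S_QRP : Prop := ∀ (D : ℤ) (q₁ q₂ : ℕ), D ≠ 0 → q₁.Prime → q₂.Prime → q₁ ≠ q₂ → 3 ≤ q₁ → 3 ≤ q₂ →
  ¬ (q₂ : ℤ) ∣ D → ∃ p : ℕ, p.Prime ∧ 5 ≤ p ∧ p % 4 = 1 ∧ ¬ (p : ℤ) ∣ D ∧ ¬ p ∣ q₁ * q₂ ∧
    IsSquare ((-D : ℤ) : ZMod p) ∧ ¬ IsSquare ((q₁ * q₂ : ℕ) : ZMod p)

/-- PIG. Pigeonhole: primes `q` in `(y, X]`, `X = exp((log 2 + ε) π(y))`; there are more than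
`24 · 2^π(y)` of them for `y` large (Mathlib `Chebyshev.psi_ge'`, `Chebyshev.psi_le_primeCounting_mul_log'`,
or `primeCounting_tendsto` in `Pool.Agent.H62.PNT`), so two have the same residue mod 24 and the same
`IsSquare (q : ZMod p)` for all odd primes `p ≤ y`; then `q₁ q₂` is a square mod `p`. -/
def S_PIG : Prop := ∀ ε : ℝ, 0 < ε → ∃ y₀ : ℕ, ∀ y : ℕ, y₀ ≤ y → ∃ q₁ q₂ : ℕ, q₁.Prime ∧ q₂.Prime ∧
  q₁ ≠ q₂ ∧ y < q₁ ∧ y < q₂ ∧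
  (q₁ : ℝ) ≤ Real.exp ((Real.log 2 + ε) * Nat.primeCounting y) ∧
  (q₂ : ℝ) ≤ Real.exp ((Real.log 2 + ε) * Nat.primeCounting y) ∧ q₁ % 24 = q₂ % 24 ∧
  ∀ p : ℕ, p.Prime → 3 ≤ p → p ≤ y → IsSquare ((q₁ * q₂ : ℕ) : ZMod p)

/-- CON. Choose `ε` with `4c(log 2 + 3ε) < 1`. By the prime number theorem (`primeCounting_tendsto` in
`Pool.Agent.H62.PNT`) `L ≤ 4 (log 2 + 2ε) y / log y` for `y` large, hence `log L ≤ log y`. -/
def S_CON : Prop := ∀ c K₀ : ℝ, 0 < c → c < 1 / (4 * Real.log 2) → ∃ ε : ℝ, 0 < ε ∧ ∃ y₀ : ℕ, ∀ y : ℕ,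
  y₀ ≤ y → ∀ L : ℝ, 1 ≤ L → L ≤ K₀ + 4 * (Real.log 2 + ε) * Nat.primeCounting y →
  c * L * Real.log L ≤ y

/-- MDL. With `d = q₁ q₂`: `D (a d²) (b d³) = d⁶ D a b`; a prime `ℓ` with `ℓ⁴ ∣ a d²`, `ℓ⁶ ∣ b d³` is not
`q₁` or `q₂` (else `ℓ² ∣ a`, `ℓ³ ∣ b`, so `ℓ ∣ D a b`), and for the other `ℓ` it would contradict
`IsModel a b`. The primes `≥ 5` dividing `d⁶ D a b` are those dividing `D a b`, and `q₁`, `q₂`. -/
def S_MDL : Prop := ∀ a b : ℤ, IsModel a b → ∀ q₁ q₂ : ℕ, q₁.Prime → q₂.Prime → q₁ ≠ q₂ → 5 ≤ q₁ → 5 ≤ q₂ →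
  ¬ (q₁ : ℤ) ∣ D a b → ¬ (q₂ : ℤ) ∣ D a b →
  IsModel (a * (q₁ * q₂ : ℕ) ^ 2) (b * (q₁ * q₂ : ℕ) ^ 3) ∧
  D (a * (q₁ * q₂ : ℕ) ^ 2) (b * (q₁ * q₂ : ℕ) ^ 3) = (q₁ * q₂ : ℕ) ^ 6 * D a b ∧
  R (a * (q₁ * q₂ : ℕ) ^ 2) (b * (q₁ * q₂ : ℕ) ^ 3) = R a b * q₁ * q₂

/-- FIN, the theorem. `c ≤ 0` reduces to a positive `c`. Take `K₀ = 2 log(2^8 3^5) + 4 log R(a,b)`, `ε`, `y₀`
from CON, `y` larger than all `y₀`, `B`, `5` and `|D a b|`, then `q₁, q₂` from PIG (they are `> y`, so they do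
not divide `D a b`), `d = q₁ q₂`; `L = log (M M') = K₀ + 2 log(q₁q₂)`. Every prime `5 ≤ p ≤ c L log L` is
`≤ y`, so it does not divide `d`, `d` is a nonzero square mod `p` and TWS applies. `d % 24 = 1` since
`q₁² ≡ 1 mod 24`. The separating prime comes from QRP, TWN and NZ. -/
def S_FIN : Prop := ∀ a b : ℤ, IsModel a b → ∀ c : ℝ, c < 1 / (4 * Real.log 2) → ∀ B : ℕ, ∃ d : ℕ,
  B < d ∧ d % 24 = 1 ∧ IsModel (a * d ^ 2) (b * d ^ 3) ∧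
  (∃ p : ℕ, p.Prime ∧ 5 ≤ p ∧ ¬ (p : ℤ) ∣ D a b ∧ ¬ (p : ℤ) ∣ D (a * d ^ 2) (b * d ^ 3) ∧
    pts a b p ≠ pts (a * d ^ 2) (b * d ^ 3) p) ∧
  ∀ p : ℕ, p.Prime → 5 ≤ p → (p : ℝ) ≤ c * Real.log ((M a b : ℝ) * M (a * d ^ 2) (b * d ^ 3)) *
      Real.log (Real.log ((M a b : ℝ) * M (a * d ^ 2) (b * d ^ 3))) →
    ¬ (p : ℤ) ∣ D a b → ¬ (p : ℤ) ∣ D (a * d ^ 2) (b * d ^ 3) →
    pts a b p = pts (a * d ^ 2) (b * d ^ 3) p

end ESL
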